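import Pool.Agent.helper4.QS.Spec

/-!
# EXF: the factors of the example
-/

open scoped BigOperators ComplexOrder ComplexConjugate Topology

namespace Pool.Agent.QS

open Pool.Agent.helper86.CM Filter

noncomputable section

lemma EXF_self_neg {b : Lat 1} (hb : b ≠ 0) : b ≠ -b := by
  intro h
  apply hb
  funext i
  have := congrFun h i
  simp only [Pi.neg_apply, Pi.zero_apply] at this ⊢
  omega

lemma EXF_two {b : Lat 1} (hb : b ≠ 0) : b + b ≠ 0 := by
  intro h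
  apply EXF_self_neg hb
  exact eq_neg_of_add_eq_zero_left h

lemma EXF_mem (b : Lat 1) (x : PP) :
    x ∈ blk b ↔ x = 0 ∨ x = (b, 0) ∨ x = (-b, 0) ∨ x = (0, b) ∨ x = (0, -b) := by
  simp [blk]

lemma EXF_sum {b : Lat 1} (hb : b ≠ 0) (f : PP → ℂ) :
    ∑ x ∈ blk b, f x = f 0 + (f (b, 0) + (f (-b, 0) + (f (0, b) + f (0, -b)))) := by
  have h1 := EXF_self_neg hb
  unfold blk
  rw [Finset.sum_insert, Finset.sum_insert, Finset.sum_insert, Finset.sum_insert, Finset.sum_singleton]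
  · simp only [Finset.mem_singleton, Prod.mk.injEq, true_and]
    exact h1
  · simp [Prod.ext_iff, hb]
  · simp [Prod.ext_iff, hb, h1]
  · simp [Prod.ext_iff, hb, Ne.symm hb, eq_comm]

lemma EXF_hh0 (B : Lat 1 ≃ₗ[ℤ] Lat 1) (t : ℤ) (a c : Lat 1) : hh B t ((a, 0) : PP) ((c, 0) : PP) = 0 := by
  simp [hh, beta, omega_zero_right]

lemma EXF_hh1 (B : Lat 1 ≃ₗ[ℤ] Lat 1) (t : ℤ) (m w : Lat 1) :
    -2 * hh B t ((0, m) : PP) ((w, 0) : PP) = beta B t w m := by
  simp [hh, beta, omega_zero_left]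
  ring

lemma EXF_wt0 : wt 0 = 1 / Real.sqrt 2 := by simp [wt]

lemma EXF_wt1 {x : PP} (hx : x ≠ 0) : wt x = 1 / (2 * Real.sqrt 2) := by simp [wt, hx]

lemma EXF_G00 : GX 0 0 = 1 / 2 := by
  unfold GX
  rw [EXF_wt0]
  have h : Real.sqrt 2 * Real.sqrt 2 = 2 := Real.mul_self_sqrt (by norm_num)
  have h2 : (1 / Real.sqrt 2) * (1 / Real.sqrt 2) = 1 / 2 := by
    rw [div_mul_div_comm, h]
    norm_num
  rw [h2]
  norm_num

lemma EXF_G0x {x : PP} (hx : x ≠ 0) : GX 0 x = 1 / 4 := by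
  unfold GX
  rw [EXF_wt0, EXF_wt1 hx]
  have h : Real.sqrt 2 * Real.sqrt 2 = 2 := Real.mul_self_sqrt (by norm_num)
  have h2 : (1 / Real.sqrt 2) * (1 / (2 * Real.sqrt 2)) = 1 / 4 := by
    rw [div_mul_div_comm, show Real.sqrt 2 * (2 * Real.sqrt 2) = 2 * (Real.sqrt 2 * Real.sqrt 2) by ring, h]
    norm_num
  rw [h2]
  norm_num

lemma EXF_Gx0 {x : PP} (hx : x ≠ 0) : GX x 0 = 1 / 4 := by
  have := EXF_G0x hx
  unfold GX at this ⊢
  rw [mul_comm]
  exact this

lemma EXF_Gxx {x : PP} (hx : x ≠ 0) : GX x x = 1 / 8 := by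
  unfold GX
  rw [EXF_wt1 hx]
  have h : Real.sqrt 2 * Real.sqrt 2 = 2 := Real.mul_self_sqrt (by norm_num)
  have h2 : (1 / (2 * Real.sqrt 2)) * (1 / (2 * Real.sqrt 2)) = 1 / 8 := by
    rw [div_mul_div_comm, show 2 * Real.sqrt 2 * (2 * Real.sqrt 2) = 4 * (Real.sqrt 2 * Real.sqrt 2) by ring, h]
    norm_num
  rw [h2]
  norm_num

lemma EXF_beta_sum (B : Lat 1 ≃ₗ[ℤ] Lat 1) (t : ℤ) (s : Finset ℕ) (f : ℕ → Lat 1) (m : Lat 1) :
    beta B t (∑ i ∈ s, f i) m = ∑ i ∈ s, beta B t (f i) m := by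
  classical
  induction s using Finset.induction_on with
  | empty => simp [beta, omega_zero_left]
  | insert a s ha ih =>
    rw [Finset.sum_insert ha, Finset.sum_insert ha, ← ih]
    simp only [beta, omega_add_left]
    push_cast
    ring

lemma EXF_beta_neg (B : Lat 1 ≃ₗ[ℤ] Lat 1) (t : ℤ) (n m : Lat 1) : beta B t n (-m) = - beta B t n m := by
  simp only [beta, map_neg, omega_neg_right]
  push_cast
  ring

lemma EXF_beta_smul (B : Lat 1 ≃ₗ[ℤ] Lat 1) (t : ℤ) (a : ℤ) (n m : Lat 1) :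
    beta B t (a • n) m = a * beta B t n m := by
  simp only [beta, omega_smul_left]
  push_cast
  ring

lemma EXF_beta_pw {B : Lat 1 ≃ₗ[ℤ] Lat 1} {t : ℤ} (h : Cat B t) (e : ℤ) (n m : Lat 1) :
    beta B t (pw B e n) (pw B e m) = beta B t n m := by
  have h1 : B (pw B e m) = pw B e (B m) := by
    rw [← pw_succ, ← pw_one, ← pw_add]
  simp only [beta, h1, pw_om h]

lemma EXF_ee_cos (θ : ℝ) : ee θ + ee (-θ) = ((2 * Real.cos (2 * Real.pi * θ) : ℝ) : ℂ) := by
  unfold ee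
  push_cast
  rw [Complex.cos]
  have h1 : 2 * (Real.pi : ℂ) * Complex.I * (θ : ℂ) = 2 * Real.pi * θ * Complex.I := by ring
  have h2 : 2 * (Real.pi : ℂ) * Complex.I * (-(θ : ℂ)) = -(2 * Real.pi * θ) * Complex.I := by ring
  rw [h1, h2]
  ring

lemma EXF_fac_def {Γ P : Type} [AddCommGroup Γ] [AddCommGroup P] (h : Γ → Γ → ℝ) (ι : P →+ Γ) (S : Finset P)
    (G : P → P → ℂ) (u : P) (v : Γ) [DecidablePred (· ∈ S)] :
    fac h ι S G u v = ee (h (ι u) v) * ∑ x ∈ S, (if x - u ∈ S then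
      G x (x - u) * ee (-(h (ι x) (ι u)) - 2 * h (ι x) v) else 0) := by
  unfold fac
  congr 1
  refine Finset.sum_congr rfl (fun x _ => ?_)
  by_cases hx : x - u ∈ S
  · rw [if_pos hx, if_pos hx]
  · rw [if_neg hx, if_neg hx]

lemma EXF_blk_neg (b : Lat 1) : blk (-b) = blk b := by
  ext x
  rw [EXF_mem, EXF_mem, neg_neg]
  tauto

/-- the case of a nonzero coefficient -/
lemma EXF_case1 (c : Lat 1) (hc : c ≠ 0)
    (F : PP → PP → ℂ) (hF : ∀ a a' : Lat 1, F ((a, 0) : PP) ((a', 0) : PP) = 1) :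
    (∑ x ∈ blk c, (if x - ((c, 0) : PP) ∈ blk c then GX x (x - ((c, 0) : PP)) * F x ((c, 0) : PP) else 0)) = 1 / 2 := by
  obtain ⟨i, hi⟩ := Function.ne_iff.mp hc
  simp only [Pi.zero_apply] at hi
  rw [EXF_sum hc]
  have e0 : (0 : PP) - ((c, 0) : PP) = ((-c, 0) : PP) := by
    refine Prod.ext ?_ ?_ <;> simp
  have e1 : ((c, 0) : PP) - ((c, 0) : PP) = 0 := sub_self _
  have m0 : ((-c, 0) : PP) ∈ blk c := by rw [EXF_mem]; tauto
  have m1 : (0 : PP) ∈ blk c := by rw [EXF_mem]; tauto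
  have m2 : ((-c, 0) : PP) - ((c, 0) : PP) ∉ blk c := by
    intro h
    rw [EXF_mem] at h
    rcases h with h | h | h | h | h <;>
    · have h1 := congrFun (congrArg Prod.fst h) i
      simp at h1
      omega
  have m3 : ((0, c) : PP) - ((c, 0) : PP) ∉ blk c := by
    intro h
    rw [EXF_mem] at h
    rcases h with h | h | h | h | h <;>
    · have h1 := congrFun (congrArg Prod.fst h) i
      have h2 := congrFun (congrArg Prod.snd h) i
      simp at h1 h2
      omega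
  have m4 : ((0, -c) : PP) - ((c, 0) : PP) ∉ blk c := by
    intro h
    rw [EXF_mem] at h
    rcases h with h | h | h | h | h <;>
    · have h1 := congrFun (congrArg Prod.fst h) i
      have h2 := congrFun (congrArg Prod.snd h) i
      simp at h1 h2
      omega
  rw [e0, e1, if_pos m0, if_pos m1, if_neg m2, if_neg m3, if_neg m4]
  have hc1 : ((c, 0) : PP) ≠ 0 := fun h => hc (congrArg Prod.fst h)
  have hc2 : ((-c, 0) : PP) ≠ 0 := fun h => hc (by simpa using congrArg Prod.fst h)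
  rw [EXF_G0x hc2, EXF_Gx0 hc1, hF, show (0 : PP) = ((0, 0) : PP) from rfl, hF]
  norm_num

theorem EXF (hBET : BET_stmt) (hLUL : LUL_stmt) : EXF_stmt := by
  intro B t hB b hb s j γ hγ
  obtain ⟨hB1, hB2, hB3, hB4⟩ := hBET B t hB
  obtain ⟨hL1, hL2, hL3, hL4⟩ := hLUL t hB.lt
  set w : Lat 1 := ∑ i ∈ Finset.range j, pw B ((s * i : ℕ) : ℤ) (γ i • b) with hw
  have hv : (∑ i ∈ Finset.range j, siteI B s i ((γ i • b, 0) : PP)) = ((w, 0) : PP) := by
    refine Prod.ext ?_ ?_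
    · rw [Prod.fst_sum]
      rfl
    · rw [Prod.snd_sum]
      refine Finset.sum_eq_zero (fun i _ => ?_)
      rw [siteI_apply]
      simp
  rw [hv]
  have hι1 : ∀ a : Lat 1, siteI B s j ((a, 0) : PP) = (pw B ((s * j : ℕ) : ℤ) a, 0) := by
    intro a
    rw [siteI_apply]
    simp
  have hι2 : ∀ a : Lat 1, siteI B s j ((0, a) : PP) = (0, pw B ((s * j : ℕ) : ℤ) a) := by
    intro a
    rw [siteI_apply]
    simp
  have hb1 : ((b, 0) : PP) ≠ 0 := fun h => hb (congrArg Prod.fst h)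
  have hb2 : ((-b, 0) : PP) ≠ 0 := fun h => hb (by simpa using congrArg Prod.fst h)
  have hb3 : ((0, b) : PP) ≠ 0 := fun h => hb (congrArg Prod.snd h)
  have hb4 : ((0, -b) : PP) ≠ 0 := fun h => hb (by simpa using congrArg Prod.snd h)
  have hfirst : hh B t (siteI B s j ((γ j • b, 0) : PP)) ((w, 0) : PP) = 0 := by rw [hι1, EXF_hh0]
  rw [EXF_fac_def, hfirst, ee_zero, one_mul]
  by_cases h0 : γ j = 0
  · rw [if_pos h0, h0, zero_smul]
    have hpp : ((0, 0) : PP) = 0 := rfl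
    rw [hpp]
    have hsum : (∑ x ∈ blk b, (if x - 0 ∈ blk b then
        GX x (x - 0) * ee (-(hh B t (siteI B s j x) (siteI B s j 0)) - 2 * hh B t (siteI B s j x) ((w, 0) : PP)) else 0)) =
        ∑ x ∈ blk b, GX x x * ee (- 2 * hh B t (siteI B s j x) ((w, 0) : PP)) := by
      refine Finset.sum_congr rfl (fun x hx => ?_)
      rw [sub_zero, if_pos hx, map_zero, (bil_hh B t).zeror]
      congr 2
      ring
    rw [hsum, EXF_sum hb]
    have k0 : ee (- 2 * hh B t (siteI B s j 0) ((w, 0) : PP)) = 1 := by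
      rw [map_zero, (bil_hh B t).zerol, mul_zero, ee_zero]
    have k1 : ee (- 2 * hh B t (siteI B s j ((b, 0) : PP)) ((w, 0) : PP)) = 1 := by
      rw [hι1, EXF_hh0, mul_zero, ee_zero]
    have k2 : ee (- 2 * hh B t (siteI B s j ((-b, 0) : PP)) ((w, 0) : PP)) = 1 := by
      rw [hι1, EXF_hh0, mul_zero, ee_zero]
    have k3 : - 2 * hh B t (siteI B s j ((0, b) : PP)) ((w, 0) : PP) = beta B t w (pw B ((s * j : ℕ) : ℤ) b) := by
      rw [hι2, EXF_hh1]
    have k4 : - 2 * hh B t (siteI B s j ((0, -b) : PP)) ((w, 0) : PP) = - beta B t w (pw B ((s * j : ℕ) : ℤ) b) := by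
      rw [hι2, EXF_hh1, map_neg, EXF_beta_neg]
    rw [k0, k1, k2, k3, k4, EXF_G00, EXF_Gxx hb1, EXF_Gxx hb2, EXF_Gxx hb3, EXF_Gxx hb4]
    have hθ : ∃ z : ℤ, beta B t w (pw B ((s * j : ℕ) : ℤ) b) = z - (omega b (B b) : ℝ) *
        ∑ i ∈ Finset.range j, (γ i : ℝ) * ((lam t)⁻¹) ^ (s * (j - i)) := by
      choose v hv using hL4
      refine ⟨∑ i ∈ Finset.range j, γ i * (omega b (B b) * v (s * (j - i))), ?_⟩
      rw [hw, EXF_beta_sum, Finset.mul_sum]
      simp only [Int.cast_sum, Int.cast_mul]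
      rw [← Finset.sum_sub_distrib]
      refine Finset.sum_congr rfl (fun i hi => ?_)
      rw [Finset.mem_range] at hi
      rw [pw_smul, EXF_beta_smul]
      have e1 : pw B ((s * j : ℕ) : ℤ) b = pw B ((s * i : ℕ) : ℤ) (pw B ((s * (j - i) : ℕ) : ℤ) b) := by
        rw [← pw_add]
        congr 1
        have e3 : i + (j - i) = j := by omega
        rw [← Nat.cast_add, ← mul_add, e3]
      have e2 := hv (s * (j - i))
      rw [e1, EXF_beta_pw hB, hB1, zpow_natCast, hB3, ← e2]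
      ring
    obtain ⟨z, hz⟩ := hθ
    set θ := beta B t w (pw B ((s * j : ℕ) : ℤ) b) with hθdef
    have hcos : Real.cos (2 * Real.pi * θ) = Real.cos (2 * Real.pi * (omega b (B b) : ℝ) *
        ∑ i ∈ Finset.range j, (γ i : ℝ) * ((lam t)⁻¹) ^ (s * (j - i))) := by
      rw [hz]
      have e1 : 2 * Real.pi * ((z : ℝ) - (omega b (B b) : ℝ) *
          ∑ i ∈ Finset.range j, (γ i : ℝ) * ((lam t)⁻¹) ^ (s * (j - i))) =
          -(2 * Real.pi * (omega b (B b) : ℝ) *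
            ∑ i ∈ Finset.range j, (γ i : ℝ) * ((lam t)⁻¹) ^ (s * (j - i))) + z * (2 * Real.pi) := by ring
      rw [e1, Real.cos_add_int_mul_two_pi, Real.cos_neg]
    rw [← hcos]
    have hee := EXF_ee_cos θ
    have e5 : (1 / 2 : ℂ) * 1 + (1 / 8 * 1 + (1 / 8 * 1 + (1 / 8 * ee θ + 1 / 8 * ee (-θ)))) =
        3 / 4 + 1 / 8 * (ee θ + ee (-θ)) := by ring
    rw [e5, hee]
    push_cast
    ring
  · rw [if_neg h0]
    have hF : ∀ a a' : Lat 1, ee (-(hh B t (siteI B s j ((a, 0) : PP)) (siteI B s j ((a', 0) : PP))) -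
        2 * hh B t (siteI B s j ((a, 0) : PP)) ((w, 0) : PP)) = 1 := by
      intro a a'
      rw [hι1, hι1, EXF_hh0, EXF_hh0]
      simp [ee_zero]
    have h1 : γ j = 1 ∨ γ j = -1 := by
      have := abs_le.mp (hγ j)
      omega
    rcases h1 with h1 | h1
    · rw [h1, one_smul]
      exact EXF_case1 b hb (fun x u => ee (-(hh B t (siteI B s j x) (siteI B s j u)) -
        2 * hh B t (siteI B s j x) ((w, 0) : PP))) hF
    · rw [h1, neg_one_smul, ← EXF_blk_neg b]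
      exact EXF_case1 (-b) (neg_ne_zero.mpr hb) (fun x u => ee (-(hh B t (siteI B s j x) (siteI B s j u)) -
        2 * hh B t (siteI B s j x) ((w, 0) : PP))) hF

end

end Pool.Agent.QS
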