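import Pool.Agent.helper4.QS.Spec

/-!
# SUPP: support of the block states
-/

open scoped BigOperators ComplexOrder ComplexConjugate Topology

namespace Pool.Agent.QS

open Pool.Agent.helper86.CM Filter

noncomputable section

theorem SUPP : SUPP_stmt := by
  intro Γ P _ _ h ι S G E0 Z hE0 J
  induction J with
  | zero =>
    intro z hz
    refine ⟨fun _ => 0, fun j hj => absurd hj (Nat.not_lt_zero _), ?_⟩
    by_contra hn
    rw [Finset.range_zero, Finset.sum_empty, sub_zero] at hn
    exact hz (hE0 z hn)
  | succ J ih =>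
    intro z hz
    have hz' : stepE h (ι J) S G (iterE h ι S G E0 J) z ≠ 0 := hz
    unfold stepE at hz'
    obtain ⟨x, hx, hx1⟩ := Finset.exists_ne_zero_of_sum_ne_zero hz'
    obtain ⟨y, hy, hy1⟩ := Finset.exists_ne_zero_of_sum_ne_zero hx1
    obtain ⟨g, hg1, hg2⟩ := ih _ (right_ne_zero_of_mul hy1)
    refine ⟨Function.update g J (x - y), ?_, ?_⟩
    · intro j hj
      rcases Nat.lt_succ_iff_lt_or_eq.mp hj with hj | rfl
      · rw [Function.update_of_ne hj.ne]
        exact hg1 j hj
      · exact ⟨x, hx, y, hy, Function.update_self _ _ _⟩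
    · rw [Finset.sum_range_succ, Function.update_self]
      have h1 : ∑ j ∈ Finset.range J, ι j (Function.update g J (x - y) j) = ∑ j ∈ Finset.range J, ι j (g j) := by
        refine Finset.sum_congr rfl (fun j hj => ?_)
        rw [Function.update_of_ne (Finset.mem_range.mp hj).ne]
      rw [h1, map_sub]
      have h2 : z - (∑ j ∈ Finset.range J, ι j (g j) + (ι J x - ι J y)) =
          z + ι J y - ι J x - ∑ j ∈ Finset.range J, ι j (g j) := by abel
      rw [h2]
      exact hg2

end

end Pool.Agent.QS
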